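import Pool.Agent.Helper40.AC.Stmts

/-!
Project AC (MP_4c91e2_ag): the dimension of a nonsingular image of a compact submanifold.
-/

open scoped ContDiff Topology
open Pool.Agent.Helper40.AC Set

namespace Pool.Agent.Helper20.AC

/-- A surjective linear map is completed to an isomorphism. -/
theorem complete {E : Type} [NormedAddCommGroup E] [NormedSpace ℝ E] [FiniteDimensional ℝ E]
    {k m : ℕ} (A : E →L[ℝ] (Fin k → ℝ)) (hA : Function.Surjective A)
    (hkm : k + m = Module.finrank ℝ E) :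
    ∃ (L : E →L[ℝ] (Fin m → ℝ)) (e : E ≃L[ℝ] (Fin k → ℝ) × (Fin m → ℝ)),
      (e : E →L[ℝ] (Fin k → ℝ) × (Fin m → ℝ)) = A.prod L := by
  have h1 : Module.finrank ℝ (LinearMap.ker A.toLinearMap) = m := by
    have h2 := LinearMap.finrank_range_add_finrank_ker A.toLinearMap
    rw [LinearMap.range_eq_top.2 hA, finrank_top, Module.finrank_fin_fun] at h2
    omega
  obtain ⟨q, hq⟩ := Submodule.exists_isCompl (LinearMap.ker A.toLinearMap)
  have h3 : Module.finrank ℝ (LinearMap.ker A.toLinearMap) = Module.finrank ℝ (Fin m → ℝ) := by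
    rw [h1, Module.finrank_fin_fun]
  let φ : LinearMap.ker A.toLinearMap ≃ₗ[ℝ] (Fin m → ℝ) := LinearEquiv.ofFinrankEq _ _ h3
  let L : E →ₗ[ℝ] (Fin m → ℝ) := φ.toLinearMap ∘ₗ Submodule.projectionOnto _ _ hq
  have hinj : Function.Injective (A.toLinearMap.prod L) := by
    rw [← LinearMap.ker_eq_bot, LinearMap.ker_eq_bot']
    intro v hv
    have hv1 : A v = 0 := congrArg Prod.fst hv
    have hv2 : L v = 0 := congrArg Prod.snd hv
    have hv3 : v ∈ LinearMap.ker A.toLinearMap := hv1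
    have hv4 : Submodule.projectionOnto _ _ hq v = 0 :=
      φ.injective (by rw [map_zero]; exact hv2)
    have hv5 := Submodule.projectionOnto_apply_left hq ⟨v, hv3⟩
    rw [hv4] at hv5
    exact (congrArg Subtype.val hv5).symm
  have hfr : Module.finrank ℝ E = Module.finrank ℝ ((Fin k → ℝ) × (Fin m → ℝ)) := by
    rw [Module.finrank_prod, Module.finrank_fin_fun, Module.finrank_fin_fun, hkm]
  let e := LinearEquiv.ofInjectiveOfFinrankEq (A.toLinearMap.prod L) hinj hfr
  refine ⟨LinearMap.toContinuousLinearMap L, e.toContinuousLinearEquiv, ?_⟩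
  ext v
  · rfl
  · rfl

/-- A submersion is completed to a local diffeomorphism by a linear map. -/
theorem local_inv {E : Type} [NormedAddCommGroup E] [NormedSpace ℝ E] [FiniteDimensional ℝ E]
    {k m : ℕ} {g : E → (Fin k → ℝ)} {x : E} (hg : ContDiffAt ℝ 1 g x)
    (hA : Function.Surjective (fderiv ℝ g x)) (hkm : k + m = Module.finrank ℝ E) :
    ∃ (L : E →L[ℝ] (Fin m → ℝ)) (c : (Fin k → ℝ) × (Fin m → ℝ) → E),
      ContDiffAt ℝ 1 c (g x, L x) ∧ c (g x, L x) = x ∧ (∀ᶠ y in 𝓝 x, c (g y, L y) = y) ∧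
      (∀ᶠ w in 𝓝 (g x, L x), (g (c w), L (c w)) = w) := by
  obtain ⟨L, e, he⟩ := complete (fderiv ℝ g x) hA hkm
  have hG : ContDiffAt ℝ 1 (fun y => (g y, L y)) x := hg.prodMk L.contDiff.contDiffAt
  have hG' : HasFDerivAt (fun y => (g y, L y)) (e : E →L[ℝ] (Fin k → ℝ) × (Fin m → ℝ)) x := by
    rw [he]
    exact (hg.differentiableAt one_ne_zero).hasFDerivAt.prodMk L.hasFDerivAt
  have hs := hG.hasStrictFDerivAt' hG' one_ne_zero
  exact ⟨L, hG.localInverse hG' one_ne_zero, hG.to_localInverse hG' one_ne_zero,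
    hG.localInverse_apply_image hG' one_ne_zero, hs.eventually_left_inverse,
    hs.eventually_right_inverse⟩

/-- The image of a compact submanifold of dimension `m` by a smooth map has Hausdorff dimension at
most `m`. -/
theorem dimH_image_submanifold {ι κ : Type} [Fintype ι] [Fintype κ] {M : Set (ι → ℝ)} {m : ℕ}
    (hM : IsCompact M) (hS : SmoothSubmanifold M m) {f : (ι → ℝ) → (κ → ℝ)}
    (hf : ContDiffOn ℝ ∞ f M) : dimH (f '' M) ≤ m := by
  have key : ∀ x ∈ M, ∃ U ∈ 𝓝 x, dimH (f '' (M ∩ U)) ≤ m := by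
    intro x hx
    obtain ⟨k, g, U, hkm, hU, hxU, hg, hsurj, hMU⟩ := hS x hx
    have hg1 : ContDiffAt ℝ 1 g x := (hg.contDiffAt (hU.mem_nhds hxU)).of_le (by norm_cast)
    obtain ⟨L, c, hc, hcx, hcl, hcr⟩ := local_inv hg1 hsurj
      (by rw [hkm, Module.finrank_fintype_fun_eq_card])
    have hgx : g x = 0 := by
      have : x ∈ M ∩ U := ⟨hx, hxU⟩
      rw [hMU] at this
      exact this.2
    rw [hgx] at hc hcx hcr
    have hi : ContDiffAt ℝ 1 (fun w : Fin m → ℝ => c (0, w)) (L x) :=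
      ContDiffAt.comp (L x) hc (contDiffAt_const.prodMk contDiffAt_id)
    have hi0 : Filter.Tendsto (fun w : Fin m → ℝ => ((0 : Fin k → ℝ), w)) (𝓝 (L x))
        (𝓝 ((0 : Fin k → ℝ), L x)) := (continuous_const.prodMk continuous_id).tendsto _
    obtain ⟨s, hs, hcs⟩ := hi.contDiffOn (m := 1) le_rfl (by simp)
    have hcU : ∀ᶠ w in 𝓝 (L x), c (0, w) ∈ U := by
      have := hi.continuousAt
      refine this.eventually ?_
      show ∀ᶠ y in 𝓝 (c (0, L x)), y ∈ U
      rw [hcx]
      exact hU.mem_nhds hxU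
    have hcg : ∀ᶠ w in 𝓝 (L x), g (c (0, w)) = 0 := by
      filter_upwards [hi0.eventually hcr] with w hw
      exact congrArg Prod.fst hw
    obtain ⟨r, hr, hball⟩ := Metric.mem_nhds_iff.1
      (Filter.inter_mem hs (Filter.inter_mem hcU hcg))
    have hcM : ∀ w ∈ Metric.ball (L x) r, c (0, w) ∈ M := by
      intro w hw
      obtain ⟨-, h1, h2⟩ := hball hw
      have : c (0, w) ∈ M ∩ U := by
        rw [hMU]
        exact ⟨h1, h2⟩
      exact this.1
    have hfc : ContDiffOn ℝ 1 (fun w : Fin m → ℝ => f (c (0, w))) (Metric.ball (L x) r) :=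
      (hf.of_le (by norm_cast)).comp (hcs.mono fun w hw => (hball hw).1) hcM
    refine ⟨_, Filter.inter_mem hcl (Filter.inter_mem (hU.mem_nhds hxU)
      (L.continuous.continuousAt.preimage_mem_nhds (Metric.ball_mem_nhds (L x) hr))), ?_⟩
    refine le_trans (dimH_mono ?_) (le_trans (hfc.dimH_image_le (convex_ball _ _) subset_rfl) ?_)
    · rintro _ ⟨y, ⟨hyM, hy1, hyU, hy2⟩, rfl⟩
      refine ⟨L y, hy2, ?_⟩
      have hy3 : g y = 0 := by
        have : y ∈ M ∩ U := ⟨hyM, hyU⟩
        rw [hMU] at this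
        exact this.2
      have hy4 : c (g y, L y) = y := hy1
      rw [hy3] at hy4
      simp only [hy4]
    · refine le_trans (dimH_mono (subset_univ _)) ?_
      rw [Real.dimH_univ_pi_fin]
  choose! U hU hd using key
  obtain ⟨t, ht⟩ := hM.elim_nhds_subcover' (fun x _ => U x) (fun x hx => hU x hx)
  have h1 : f '' M ⊆ ⋃ x ∈ t, f '' (M ∩ U x) := by
    rintro _ ⟨y, hy, rfl⟩
    obtain ⟨x, hx, hyx⟩ := mem_iUnion₂.1 (ht hy)
    exact mem_iUnion₂.2 ⟨x, hx, y, ⟨hy, hyx⟩, rfl⟩
  have h2 := dimH_bUnion (s := (t : Set M)) t.countable_toSet fun x : M => f '' (M ∩ U x)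
  simp only [Finset.mem_coe] at h2
  refine (dimH_mono h1).trans ?_
  rw [h2]
  exact iSup₂_le fun x _ => hd x x.2

/-- Polynomials are smooth. -/
theorem contDiff_eval {ι : Type} [Fintype ι] (p : MvPolynomial ι ℝ) :
    ContDiff ℝ ∞ fun y : ι → ℝ => MvPolynomial.eval y p := by
  induction p using MvPolynomial.induction_on with
  | C a =>
    simp only [MvPolynomial.eval_C]
    exact contDiff_const
  | add p q hp hq =>
    simp only [map_add]
    exact hp.add hq
  | mul_X p j hp =>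
    simp only [map_mul, MvPolynomial.eval_X]
    exact hp.mul (contDiff_apply ℝ ℝ j)

/-- The derivative of a polynomial. -/
theorem hasFDerivAt_eval {ι : Type} [Fintype ι] [DecidableEq ι] (p : MvPolynomial ι ℝ)
    (x : ι → ℝ) : HasFDerivAt (fun y => MvPolynomial.eval y p)
      (∑ i, grad p x i • (ContinuousLinearMap.proj i : (ι → ℝ) →L[ℝ] ℝ)) x := by
  induction p using MvPolynomial.induction_on with
  | C a =>
    simp only [MvPolynomial.eval_C, grad, MvPolynomial.pderiv_C, map_zero, zero_smul,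
      Finset.sum_const_zero]
    exact hasFDerivAt_const a x
  | add p q hp hq =>
    simp only [grad, map_add, add_smul, Finset.sum_add_distrib] at *
    exact hp.add hq
  | mul_X p j hp =>
    have h1 : HasFDerivAt (fun y : ι → ℝ => y j)
      (ContinuousLinearMap.proj j : (ι → ℝ) →L[ℝ] ℝ) x := hasFDerivAt_apply j x
    have h2 := hp.mul h1
    simp only [map_mul, MvPolynomial.eval_X]
    refine h2.congr_fderiv ?_
    ext v
    simp only [grad, Derivation.leibniz, MvPolynomial.pderiv_X, smul_eq_mul, map_add, map_mul,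
      MvPolynomial.eval_X, add_smul, Finset.sum_add_distrib, add_apply,
      smul_apply, ContinuousLinearMap.proj_apply, sum_apply,
      Finset.smul_sum]
    congr 1
    · rw [Finset.sum_eq_single j]
      · simp
      · intro b _ hb
        simp [hb.symm]
      · simp
    · exact Finset.sum_congr rfl fun i _ => by ring

theorem grad_map {ι : Type} [Fintype ι] {k : ℕ} {g : Fin k → ι → ℝ}
    (h : LinearIndependent ℝ g) : Function.Surjective (Matrix.of g).mulVecLin := by
  classical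
  have h1 : (Matrix.of g).rank = Fintype.card (Fin k) := LinearIndependent.rank_matrix h
  rw [Matrix.rank, Fintype.card_fin] at h1
  rw [← LinearMap.range_eq_top]
  exact Submodule.eq_top_of_finrank_eq (by rw [h1, Module.finrank_fin_fun])

/-- If a nonsingular set of dimension `d` has Hausdorff dimension at most `m` then `d ≤ m`. -/
theorem dim_le {κ : Type} [Fintype κ] {X : Set (κ → ℝ)} {m d : ℕ} (hX : dimH X ≤ m)
    {z : κ → ℝ} (hz : z ∈ X) (h : NonsingAt X d z) : d ≤ m := by
  classical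
  obtain ⟨k, P, hkd, hPX, hli, U, hU, hUX⟩ := h
  have hd : ∀ y, HasFDerivAt (fun y i => MvPolynomial.eval y (P i))
      (ContinuousLinearMap.pi fun i => ∑ j, grad (P i) y j •
        (ContinuousLinearMap.proj j : (κ → ℝ) →L[ℝ] ℝ)) y := fun y =>
    hasFDerivAt_pi.2 fun i => hasFDerivAt_eval (P i) y
  have hg1 : ContDiffAt ℝ 1 (fun (y : κ → ℝ) (i : Fin k) => MvPolynomial.eval y (P i)) z :=
    (contDiff_pi.2 fun i => (contDiff_eval (P i)).of_le (by norm_cast)).contDiffAt
  have hsurj : Function.Surjective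
      (fderiv ℝ (fun (y : κ → ℝ) (i : Fin k) => MvPolynomial.eval y (P i)) z) := by
    rw [(hd z).fderiv]
    intro w
    obtain ⟨v, hv⟩ := grad_map hli w
    refine ⟨v, ?_⟩
    rw [← hv]
    funext i
    simp [Matrix.mulVec, dotProduct]
  obtain ⟨L, c, hc, hcz, hcl, hcr⟩ := local_inv hg1 hsurj
    (by rw [hkd, Module.finrank_fintype_fun_eq_card])
  have hgz : (fun i : Fin k => MvPolynomial.eval z (P i)) = 0 := funext fun i => hPX i z hz
  simp only [hgz] at hc hcz hcr
  have hi : ContinuousAt (fun w : Fin d → ℝ => c (0, w)) (L z) :=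
    ContinuousAt.comp (f := fun w : Fin d → ℝ => ((0 : Fin k → ℝ), w)) hc.continuousAt
      (continuous_const.prodMk continuous_id).continuousAt
  have hi0 : Filter.Tendsto (fun w : Fin d → ℝ => ((0 : Fin k → ℝ), w)) (𝓝 (L z))
      (𝓝 ((0 : Fin k → ℝ), L z)) := (continuous_const.prodMk continuous_id).tendsto _
  have hn : L '' X ∈ 𝓝 (L z) := by
    have hcU : ∀ᶠ w in 𝓝 (L z), c (0, w) ∈ U := by
      refine hi.eventually ?_
      show ∀ᶠ y in 𝓝 (c (0, L z)), y ∈ U
      rw [hcz]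
      exact hU
    filter_upwards [hcU, hi0.eventually hcr] with w h1 h2
    refine ⟨c (0, w), hUX _ h1 fun i => ?_, congrArg Prod.snd h2⟩
    exact congrFun (congrArg Prod.fst h2) i
  have h1 := Real.dimH_of_mem_nhds hn
  rw [Module.finrank_fin_fun] at h1
  have h2 : dimH (L '' X) ≤ dimH X := L.lipschitz.dimH_image_le X
  rw [h1] at h2
  exact_mod_cast h2.trans hX

/-- The dimension of a nonsingular set carrying tangential data is at least 6. -/
theorem dim_ge {Z : Set (Idx → ℝ)} (T : TData Z) {d : ℕ} (h : ∀ z ∈ Z, NonsingAt Z d z) :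
    6 ≤ d := by
  classical
  have h0 : T.ψ 0 0 ∈ Z := T.ψmem 0 0
  obtain ⟨k, P, hkd, hPX, hli, -⟩ := h _ h0
  have h1 : LinearMap.range (fderiv ℝ (T.ψ 0) 0).toLinearMap ≤
      LinearMap.ker (Matrix.of fun i => grad (P i) (T.ψ 0 0)).mulVecLin := by
    rintro _ ⟨u, rfl⟩
    rw [LinearMap.mem_ker]
    funext i
    have h2 : HasFDerivAt (T.ψ 0) (fderiv ℝ (T.ψ 0) 0) 0 :=
      ((T.ψsm 0).differentiable (by simp)).differentiableAt.hasFDerivAt
    have h3 := (hasFDerivAt_eval (P i) (T.ψ 0 0)).comp 0 h2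
    have h4 : (fun y => MvPolynomial.eval y (P i)) ∘ T.ψ 0 = fun _ => (0 : ℝ) :=
      funext fun u => hPX i _ (T.ψmem 0 u)
    rw [h4] at h3
    have h5 := congrArg (fun A : (Fin 8 → ℝ) →L[ℝ] ℝ => A u) (h3.unique (hasFDerivAt_const 0 0))
    simpa [Matrix.mulVec, dotProduct] using h5
  have h2 := Submodule.finrank_mono h1
  rw [T.rk] at h2
  have h3 := LinearMap.finrank_range_add_finrank_ker
    (Matrix.of fun i => grad (P i) (T.ψ 0 0)).mulVecLin
  rw [LinearMap.range_eq_top.2 (grad_map hli), finrank_top, Module.finrank_fin_fun,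
    Module.finrank_fintype_fun_eq_card] at h3
  omega

/-- The final step: a nonsingular image of `M` at the end of an isotopy has dimension 6. -/
theorem dim_eq (hM : S_M) (hGEO1 : S_GEO1) (hPLSM : S_PLSM) {H : (Idx → ℝ) → ℝ → (Idx → ℝ)}
    (hH : SmoothIsotopyIn VV MM H)
    (hd : ∀ x ∈ MM, ∀ t ∈ Set.Icc (0 : ℝ) 1, dist (H x t) x < 1) {d : ℕ}
    (hZ : NonsingLocClosed ((fun x => H x 1) '' MM) d) : d = 6 := by
  obtain ⟨T, -⟩ := hGEO1 H hH hd hPLSM
  refine le_antisymm ?_ (dim_ge T hZ.2)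
  have h0 : T.ψ 0 0 ∈ (fun x => H x 1) '' MM := T.ψmem 0 0
  have hf : ContDiffOn ℝ ∞ (fun x => H x 1) MM :=
    hH.1.comp (contDiff_id.prodMk contDiff_const).contDiffOn
      fun x hx => ⟨hx, right_mem_Icc.2 zero_le_one⟩
  exact dim_le (dimH_image_submanifold hM.1 hM.2 hf) h0 (hZ.2 _ h0)

end Pool.Agent.Helper20.AC
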