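import Pool.Agent.Helper40.AC.Stmts

/-!
Project AC (MP_4c91e2_ag), packet P39: the number of the example does not vanish.
-/

open scoped ContDiff Topology Matrix
open Pool.Agent.Helper40.AC

namespace Pool.Agent.Helper20.AC

/-- The squared length of the segment point. -/
def sqN (t : ℝ) (u v : Fin 3 → ℝ) : ℝ := ∑ i, ((1 - t) * u i + t * v i) ^ 2

theorem sqN_pos {u v : Fin 3 → ℝ} (hu : ∑ i, u i ^ 2 = 1) (hv : ∑ i, v i ^ 2 = 1)
    (h : v + u ≠ 0) (t : ℝ) : 0 < sqN t u v := by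
  unfold sqN
  have h0 : 0 ≤ ∑ i, ((1 - t) * u i + t * v i) ^ 2 := Finset.sum_nonneg fun i _ => sq_nonneg _
  rcases h0.lt_or_eq with h1 | h1
  · exact h1
  exfalso
  have h2 : ∀ i, (1 - t) * u i + t * v i = 0 := by
    intro i
    have := (Finset.sum_eq_zero_iff_of_nonneg (fun i _ => sq_nonneg _)).1 h1.symm i
      (Finset.mem_univ i)
    exact pow_eq_zero_iff (two_ne_zero) |>.1 this
  have h3 : (1 - t) ^ 2 = t ^ 2 := by
    have h4 : ∀ i, (1 - t) ^ 2 * u i ^ 2 = t ^ 2 * v i ^ 2 := fun i => by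
      have := h2 i
      have h5 : (1 - t) * u i = -(t * v i) := by linarith
      calc (1 - t) ^ 2 * u i ^ 2 = ((1 - t) * u i) ^ 2 := by ring
        _ = t ^ 2 * v i ^ 2 := by rw [h5]; ring
    calc (1 - t) ^ 2 = (1 - t) ^ 2 * ∑ i, u i ^ 2 := by rw [hu, mul_one]
      _ = t ^ 2 * ∑ i, v i ^ 2 := by
          rw [Finset.mul_sum, Finset.mul_sum]
          exact Finset.sum_congr rfl fun i _ => h4 i
      _ = t ^ 2 := by rw [hv, mul_one]
  have h4 : t = 1 / 2 := by nlinarith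
  apply h
  funext i
  have := h2 i
  rw [h4] at this
  simp only [Pi.add_apply, Pi.zero_apply]
  linarith

/-- The unit vector in the direction of the segment point. -/
noncomputable def seg (t : ℝ) (u v : Fin 3 → ℝ) : Fin 3 → ℝ :=
  fun i => ((1 - t) * u i + t * v i) / √(sqN t u v)

theorem seg_unit {u v : Fin 3 → ℝ} (hu : ∑ i, u i ^ 2 = 1) (hv : ∑ i, v i ^ 2 = 1)
    (h : v + u ≠ 0) (t : ℝ) : ∑ i, seg t u v i ^ 2 = 1 := by
  have h1 := sqN_pos hu hv h t
  unfold seg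
  simp only [div_pow, Real.sq_sqrt h1.le]
  rw [← Finset.sum_div]
  exact div_self h1.ne'

theorem seg_zero {u v : Fin 3 → ℝ} (hu : ∑ i, u i ^ 2 = 1) : seg 0 u v = u := by
  funext i
  simp [seg, sqN, hu]

theorem seg_one {u v : Fin 3 → ℝ} (hv : ∑ i, v i ^ 2 = 1) : seg 1 u v = v := by
  funext i
  simp [seg, sqN, hv]

theorem seg_smooth {E : Type} [NormedAddCommGroup E] [NormedSpace ℝ E] {t : E → ℝ}
    {u v : E → Fin 3 → ℝ} (ht : ContDiff ℝ ∞ t) (hu : ∀ i, ContDiff ℝ ∞ fun x => u x i)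
    (hv : ∀ i, ContDiff ℝ ∞ fun x => v x i) (hu1 : ∀ x, ∑ i, u x i ^ 2 = 1)
    (hv1 : ∀ x, ∑ i, v x i ^ 2 = 1) (h : ∀ x, v x + u x ≠ 0) (i : Fin 3) :
    ContDiff ℝ ∞ fun x => seg (t x) (u x) (v x) i := by
  have h1 : ∀ x, 0 < sqN (t x) (u x) (v x) := fun x => sqN_pos (hu1 x) (hv1 x) (h x) _
  have h2 : ContDiff ℝ ∞ fun x => sqN (t x) (u x) (v x) := by
    unfold sqN
    exact ContDiff.sum fun i _ =>
      (((contDiff_const.sub ht).mul (hu i)).add (ht.mul (hv i))).pow 2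
  have h3 : ContDiff ℝ ∞ fun x => √(sqN (t x) (u x) (v x)) := h2.sqrt fun x => (h1 x).ne'
  unfold seg
  exact (((contDiff_const.sub ht).mul (hu i)).add (ht.mul (hv i))).div h3
    fun x => (Real.sqrt_pos.2 (h1 x)).ne'

theorem pR_smooth {E : Type} [NormedAddCommGroup E] [NormedSpace ℝ E]
    {u v : E → Fin 3 → ℝ} (hu : ∀ i, ContDiff ℝ ∞ fun x => u x i)
    (hv : ∀ i, ContDiff ℝ ∞ fun x => v x i) (i j : Fin 4) :
    ContDiff ℝ ∞ fun x => pR (u x) (v x) i j := by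
  have ha0 := hu 0
  have ha1 := hu 1
  have ha2 := hu 2
  have hb0 := hv 0
  have hb1 := hv 1
  have hb2 := hv 2
  unfold pR LL RR
  fin_cases i <;> fin_cases j <;>
    simp [Matrix.mul_apply, Fin.sum_univ_four, Matrix.one_apply] <;> fun_prop

theorem mB_idem {n : Type} [Fintype n] [DecidableEq n] (p : Ang → Matrix n n ℝ)
    (h : ∀ i j, SmPer (fun x => p x i j)) (hp : ∀ x, p x * p x = p x) :
    mB p h * mB p h = mB p h := by
  ext i j
  apply BB.ext
  intro x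
  have h2 : (p x * p x) i j = p x i j := by rw [hp x]
  rw [Matrix.mul_apply] at h2
  rw [Matrix.mul_apply, ← evx_apply, map_sum, mB_fn, ← h2]
  simp

/-- The projector family of a pair of maps. -/
noncomputable def pF (α β : ℝ → ℝ → Fin 3 → ℝ) (x : Ang) : Matrix (Fin 4) (Fin 4) ℝ :=
  pR (α (x 0) (x 1)) (β (x 2) (x 3))

theorem per_pF (α β : PerMap) (x : Ang) (k : Fin 4) :
    pF α.f β.f (x + Pi.single k (2 * Real.pi)) = pF α.f β.f x := by
  unfold pF
  fin_cases k <;> simp [α.per1, α.per2, β.per1, β.per2]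

/-- The segment between two maps. -/
noncomputable def segMap (α β : PerMap) (h : ∀ θ φ, β.f θ φ + α.f θ φ ≠ 0) (t : ℝ) : PerMap where
  f θ φ := seg t (α.f θ φ) (β.f θ φ)
  smooth := by
    rw [contDiff_pi]
    intro i
    exact seg_smooth contDiff_const (fun i => contDiff_pi.1 α.smooth i)
      (fun i => contDiff_pi.1 β.smooth i) (fun _ => α.unit _ _) (fun _ => β.unit _ _)
      (fun _ => h _ _) i
  per1 θ φ := by rw [α.per1, β.per1]
  per2 θ φ := by rw [α.per2, β.per2]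
  unit θ φ := seg_unit (α.unit _ _) (β.unit _ _) (h _ _) t

theorem smooth_segMap (α β : PerMap) (h : ∀ θ φ, β.f θ φ + α.f θ φ ≠ 0) {E : Type}
    [NormedAddCommGroup E] [NormedSpace ℝ E] {t a b : E → ℝ} (ht : ContDiff ℝ ∞ t)
    (ha : ContDiff ℝ ∞ a) (hb : ContDiff ℝ ∞ b) (i : Fin 3) :
    ContDiff ℝ ∞ fun x => (segMap α β h (t x)).f (a x) (b x) i :=
  seg_smooth ht (fun i => (contDiff_pi.1 α.smooth i).comp (ha.prodMk hb))
    (fun i => (contDiff_pi.1 β.smooth i).comp (ha.prodMk hb)) (fun _ => α.unit _ _)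
    (fun _ => β.unit _ _) (fun _ => h _ _) i

theorem mB_congr {n : Type} {p q : Ang → Matrix n n ℝ} (hpq : p = q)
    (h : ∀ i j, SmPer (fun x => p x i j)) (h' : ∀ i j, SmPer (fun x => q x i j)) :
    mB p h = mB q h' := by
  subst hpq
  rfl

theorem pF_aA : pF aA aA = pL := by
  funext x
  unfold pF pL aA
  rfl

theorem prod_ok (h1 : S_PROD) (α β : PerMap) (h : ∀ i j, SmPer (fun x => pF α.f β.f x i j)) :
    Phi (mB (pF α.f β.f) h) = ((DD α.f * DD β.f : ℝ) : ℂ) := h1 α β h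

theorem smooth_pF (α β : PerMap) (h : ∀ θ φ, β.f θ φ + α.f θ φ ≠ 0) (i j : Fin 4) :
    ContDiff ℝ ∞ fun q : ℝ × Ang => pF (segMap α β h q.1).f (segMap α β h q.1).f q.2 i j := by
  unfold pF
  exact pR_smooth (smooth_segMap α β h contDiff_fst (by fun_prop) (by fun_prop))
    (smooth_segMap α β h contDiff_fst (by fun_prop) (by fun_prop)) i j

theorem smPer_pF (α β : PerMap) (h : ∀ θ φ, β.f θ φ + α.f θ φ ≠ 0) (t : ℝ) (i j : Fin 4) :
    SmPer fun x => pF (segMap α β h t).f (segMap α β h t).f x i j := by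
  refine ⟨?_, fun x k => congrFun (congrFun (per_pF _ _ x k) i) j⟩
  unfold pF
  exact pR_smooth (smooth_segMap α β h (t := fun _ => t) contDiff_const (by fun_prop) (by fun_prop))
    (smooth_segMap α β h (t := fun _ => t) contDiff_const (by fun_prop) (by fun_prop)) i j

theorem idem_pF (h5 : S_QUAT) (α β : PerMap) (x : Ang) : pF α.f β.f x * pF α.f β.f x = pF α.f β.f x :=
  (h5 _ _ (α.unit _ _) (β.unit _ _)).2.2.2.2.2.1

theorem hom_ok (h4 : S_HOM) (h5 : S_QUAT) (α β : PerMap) (h : ∀ θ φ, β.f θ φ + α.f θ φ ≠ 0) :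
    Phi (mB (pF (segMap α β h 0).f (segMap α β h 0).f) (smPer_pF α β h 0)) =
      Phi (mB (pF (segMap α β h 1).f (segMap α β h 1).f) (smPer_pF α β h 1)) :=
  h4 (fun t => mB (pF (segMap α β h t).f (segMap α β h t).f) (smPer_pF α β h t))
    (fun i j => Complex.ofRealCLM.contDiff.comp (smooth_pF α β h i j))
    (fun _ => mB_idem _ _ fun x => idem_pF h5 _ _ x)

theorem phi_ok (h1 : S_PROD) (h2 : S_A0) (h3 : S_PERM) (h4 : S_HOM) (h5 : S_QUAT) : S_PHI := by
  obtain ⟨α, hα⟩ := h3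
  obtain ⟨β, hβ0, hβ⟩ := h2
  intro hp
  have h : ∀ θ φ, β.f θ φ + α.f θ φ ≠ 0 := fun θ φ => by
    rw [hα]
    exact hβ θ φ
  have e0 : (segMap α β h 0).f = aA := by
    funext θ φ
    rw [← hα]
    exact seg_zero (α.unit _ _)
  have e1 : (segMap α β h 1).f = β.f := by
    funext θ φ
    exact seg_one (β.unit _ _)
  have k0 : mB (pF (segMap α β h 0).f (segMap α β h 0).f) (smPer_pF α β h 0) = mB pL hp :=
    mB_congr (by rw [e0, pF_aA]) _ _
  rw [← k0, hom_ok h4 h5, prod_ok h1, e1]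
  exact_mod_cast mul_ne_zero hβ0 hβ0

end Pool.Agent.Helper20.AC
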