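import Pool.Agent.Helper40.AC.Stmts

/-!
Project AC (MP_4c91e2_ag), packet P31: the quaternion matrices, and smoothness of the Nash map.
-/

open scoped ContDiff Topology Matrix
open Pool.Agent.Helper40.AC

namespace Pool.Agent.Helper20.AC

theorem LL_sq (a : Fin 3 → ℝ) (h : ∑ i, a i ^ 2 = 1) : LL a * LL a = -1 := by
  rw [Fin.sum_univ_three] at h
  ext i j
  fin_cases i <;> fin_cases j <;>
    simp [LL, Matrix.mul_apply, Fin.sum_univ_four] <;> linarith

theorem RR_sq (b : Fin 3 → ℝ) (h : ∑ i, b i ^ 2 = 1) : RR b * RR b = -1 := by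
  rw [Fin.sum_univ_three] at h
  ext i j
  fin_cases i <;> fin_cases j <;>
    simp [RR, Matrix.mul_apply, Fin.sum_univ_four] <;> linarith

theorem LL_RR (a b : Fin 3 → ℝ) : LL a * RR b = RR b * LL a := by
  ext i j
  fin_cases i <;> fin_cases j <;>
    simp [LL, RR, Matrix.mul_apply, Fin.sum_univ_four] <;> ring

theorem LL_tr (a : Fin 3 → ℝ) : (LL a)ᵀ = -LL a := by
  ext i j
  fin_cases i <;> fin_cases j <;> simp [LL]

theorem RR_tr (b : Fin 3 → ℝ) : (RR b)ᵀ = -RR b := by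
  ext i j
  fin_cases i <;> fin_cases j <;> simp [RR]

theorem trace_LLRR (a b : Fin 3 → ℝ) : (LL a * RR b).trace = 0 := by
  simp [LL, RR, Matrix.trace, Fin.sum_univ_four]
  ring

theorem quat_ok : S_QUAT := by
  intro a b ha hb
  have hL := LL_sq a ha
  have hR := RR_sq b hb
  have hc := LL_RR a b
  have hq : LL a * RR b * (LL a * RR b) = 1 := by
    calc LL a * RR b * (LL a * RR b) = LL a * (RR b * LL a) * RR b := by
          simp only [Matrix.mul_assoc]
      _ = (LL a * LL a) * (RR b * RR b) := by rw [← hc]; simp only [Matrix.mul_assoc]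
      _ = 1 := by rw [hL, hR]; simp
  refine ⟨hL, hR, hc, LL_tr a, RR_tr b, ?_, ?_, ?_, fun v => ⟨fun hv => ?_, fun hv => ?_⟩⟩
  · unfold pR
    have h1 : ((1 : Matrix (Fin 4) (Fin 4) ℝ) - LL a * RR b) * (1 - LL a * RR b) =
        (2 : ℝ) • (1 - LL a * RR b) := by
      rw [sub_mul, mul_sub (LL a * RR b), hq, two_smul]
      simp only [one_mul, mul_one]
      abel
    rw [smul_mul_smul_comm, h1, smul_smul]
    norm_num
  · unfold pR
    rw [Matrix.transpose_smul, Matrix.transpose_sub, Matrix.transpose_mul, LL_tr, RR_tr, hc]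
    simp
  · unfold pR
    rw [Matrix.trace_smul, Matrix.trace_sub, trace_LLRR]
    simp
    norm_num
  · have h1 : RR b *ᵥ v = -(LL a *ᵥ v) := by
      rw [Matrix.add_mulVec] at hv
      exact eq_neg_of_add_eq_zero_right hv
    have h2 : (LL a * RR b) *ᵥ v = v := by
      rw [← Matrix.mulVec_mulVec, h1, Matrix.mulVec_neg, Matrix.mulVec_mulVec, hL,
        Matrix.neg_mulVec, Matrix.one_mulVec, neg_neg]
    unfold pR
    rw [Matrix.smul_mulVec, Matrix.sub_mulVec, h2, Matrix.one_mulVec, sub_self, smul_zero]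
  · have h2 : (LL a * RR b) *ᵥ v = v := by
      unfold pR at hv
      rw [Matrix.smul_mulVec, Matrix.sub_mulVec, Matrix.one_mulVec] at hv
      have h3 := (smul_eq_zero.1 hv).resolve_left (by norm_num)
      exact (sub_eq_zero.1 h3).symm
    have h3 : LL a *ᵥ v = -(RR b *ᵥ v) := by
      conv_lhs => rw [← h2]
      rw [Matrix.mulVec_mulVec, ← Matrix.mul_assoc, hL, neg_mul, one_mul, Matrix.neg_mulVec]
    rw [Matrix.add_mulVec, h3]
    simp

theorem smooth_aT (h : S_ROOT) : ContDiff ℝ ∞ (fun p : ℝ × ℝ × ℝ × ℝ => aT p.1 p.2.1 p.2.2.1 p.2.2.2) := by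
  obtain ⟨h1, h2, h3, h4⟩ := h
  have hg : ContDiff ℝ ∞ (fun p : ℝ × ℝ × ℝ × ℝ => gg p.1 p.2.1 p.2.2.1 p.2.2.2) := by
    unfold gg
    fun_prop
  have hr : ContDiff ℝ ∞ (fun p : ℝ × ℝ × ℝ × ℝ => rootF (gg p.1 p.2.1 p.2.2.1 p.2.2.2)) :=
    h1.comp hg
  rw [contDiff_pi]
  intro i
  unfold aT
  refine ContDiff.div ?_ ?_ fun p => (h3 _ _ _ _ _).ne'
  · unfold bv fR fI kR kI hR hI
    fin_cases i <;> simp <;> fun_prop
  · unfold Nn fR fI kR kI hR hI
    fun_prop

attribute [local irreducible] aT rootF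

theorem smooth_aA (h : S_ROOT) : ContDiff ℝ ∞ (fun p : ℝ × ℝ => aA p.1 p.2) := by
  have h1 : ContDiff ℝ ∞ (fun p : ℝ × ℝ => ((Real.cos p.1, Real.sin p.1, Real.cos p.2, Real.sin p.2) :
      ℝ × ℝ × ℝ × ℝ)) := by fun_prop
  exact (smooth_aT h).comp h1

theorem unit_aA (h : S_ROOT) (θ φ : ℝ) : ∑ i, aA θ φ i ^ 2 = 1 := by
  obtain ⟨h1, h2, h3, h4⟩ := h
  unfold aA
  have h5 : ∀ i, aT (Real.cos θ) (Real.sin θ) (Real.cos φ) (Real.sin φ) i =
      bv (Real.cos θ) (Real.sin θ) (Real.cos φ) (Real.sin φ)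
        (rootF (gg (Real.cos θ) (Real.sin θ) (Real.cos φ) (Real.sin φ))) i /
      Nn (Real.cos θ) (Real.sin θ) (Real.cos φ) (Real.sin φ)
        (rootF (gg (Real.cos θ) (Real.sin θ) (Real.cos φ) (Real.sin φ))) := fun i => by
    unfold aT
    rfl
  simp only [h5, div_pow]
  rw [← Finset.sum_div, h4 _ _ _ _ _ (by nlinarith [Real.sin_sq_add_cos_sq θ])
    (by nlinarith [Real.sin_sq_add_cos_sq φ]) (rootF_spec _), div_self]
  exact pow_ne_zero 2 (h3 _ _ _ _ _).ne'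

theorem perm_ok (h : S_ROOT) : S_PERM :=
  ⟨⟨aA, smooth_aA h, fun θ φ => by simp [aA], fun θ φ => by simp [aA], unit_aA h⟩,
    fun _ _ => rfl⟩

theorem plsm_ok (h : S_ROOT) : S_PLSM := by
  intro i j
  have ha : ∀ k, ContDiff ℝ ∞ (fun x : Ang => aA (x 0) (x 1) k) := fun k =>
    (contDiff_pi.1 ((smooth_aA h).comp (by fun_prop :
      ContDiff ℝ ∞ (fun x : Ang => ((x 0, x 1) : ℝ × ℝ)))) k)
  have hb : ∀ k, ContDiff ℝ ∞ (fun x : Ang => aA (x 2) (x 3) k) := fun k =>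
    (contDiff_pi.1 ((smooth_aA h).comp (by fun_prop :
      ContDiff ℝ ∞ (fun x : Ang => ((x 2, x 3) : ℝ × ℝ)))) k)
  refine ⟨?_, fun x k => ?_⟩
  · show ContDiff ℝ ∞ (fun x : Ang => pR (aA (x 0) (x 1)) (aA (x 2) (x 3)) i j)
    have ha0 := ha 0
    have ha1 := ha 1
    have ha2 := ha 2
    have hb0 := hb 0
    have hb1 := hb 1
    have hb2 := hb 2
    unfold pR LL RR
    fin_cases i <;> fin_cases j <;>
      simp [Matrix.mul_apply, Fin.sum_univ_four, Matrix.one_apply] <;> fun_prop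
  · show pL _ i j = pL _ i j
    unfold pL
    fin_cases k <;> simp

end Pool.Agent.Helper20.AC
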